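import Pool.Agent.helper22.RG9.Spec3

/-! # Row rg9:CHN (a chain of matrix units in a graded family) -/

set_option autoImplicit false

namespace Pool.Agent.RG9

open Matrix Pool.Agent.H48SL Pool.Agent.UG

/-- extension by zero to all indices -/
def CHN_b {n m : ℕ} (a : Fin m → Fin m → Submodule ℚ (MQ n)) (i j : ℕ) : Submodule ℚ (MQ n) :=
  if h : i < m ∧ j < m then a ⟨i, h.1⟩ ⟨j, h.2⟩ else ⊥

/-- iterated brackets -/
def CHN_W {n : ℕ} (Y : ℕ → MQ n) : ℕ → ℕ → MQ n
  | 0, i => Y i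
  | d + 1, i => Y i * CHN_W Y d (i + 1) - CHN_W Y d (i + 1) * Y i

theorem CHN_b_eq {n m : ℕ} (a : Fin m → Fin m → Submodule ℚ (MQ n)) (i j : ℕ) (hi : i < m) (hj : j < m) :
    CHN_b a i j = a ⟨i, hi⟩ ⟨j, hj⟩ := by
  unfold CHN_b
  rw [dif_pos ⟨hi, hj⟩]

theorem CHN_br {n m : ℕ} (a : Fin m → Fin m → Submodule ℚ (MQ n)) (ha : LGr a) (i j k : ℕ) (hi : i < m) (hj : j < m)
    (hk : k < m) (hij : i ≠ j) (hjk : j ≠ k) (hik : i ≠ k) (A B : MQ n) (hA : A ∈ CHN_b a i j) (hB : B ∈ CHN_b a j k) :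
    A * B - B * A ∈ CHN_b a i k := by
  rw [CHN_b_eq a i j hi hj] at hA
  rw [CHN_b_eq a j k hj hk] at hB
  rw [CHN_b_eq a i k hi hk, ha.gen ⟨i, hi⟩ ⟨j, hj⟩ ⟨k, hk⟩ (fun h => hij (congrArg Fin.val h)) (fun h => hjk (congrArg Fin.val h))
    (fun h => hik (congrArg Fin.val h))]
  exact Submodule.subset_span ⟨A, hA, B, hB, rfl⟩

theorem CHN_comm {n m : ℕ} (a : Fin m → Fin m → Submodule ℚ (MQ n)) (ha : LGr a) (i j k l : ℕ) (hi : i < m) (hj : j < m)
    (hk : k < m) (hl : l < m) (hij : i ≠ j) (hkl : k ≠ l) (hjk : j ≠ k) (hil : i ≠ l) (A B : MQ n) (hA : A ∈ CHN_b a i j)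
    (hB : B ∈ CHN_b a k l) : A * B = B * A := by
  rw [CHN_b_eq a i j hi hj] at hA
  rw [CHN_b_eq a k l hk hl] at hB
  exact ha.comm ⟨i, hi⟩ ⟨j, hj⟩ ⟨k, hk⟩ ⟨l, hl⟩ (fun h => hij (congrArg Fin.val h)) (fun h => hkl (congrArg Fin.val h))
    (fun h => hjk (congrArg Fin.val h)) (fun h => hil (congrArg Fin.val h)) A hA B hB

theorem CHN_W_mem {n m : ℕ} (a : Fin m → Fin m → Submodule ℚ (MQ n)) (ha : LGr a) (Y : ℕ → MQ n)
    (hY : ∀ i, i + 1 < m → Y i ∈ CHN_b a i (i + 1)) :
    ∀ d i, i + d + 1 < m → CHN_W Y d i ∈ CHN_b a i (i + d + 1) := by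
  intro d
  induction d with
  | zero => intro i hi; exact hY i hi
  | succ d ih =>
    intro i hi
    have h1 := ih (i + 1) (by omega)
    have h2 : i + 1 + d + 1 = i + (d + 1) + 1 := by ring
    rw [h2] at h1
    exact CHN_br a ha i (i + 1) (i + (d + 1) + 1) (by omega) (by omega) hi (by omega) (by omega) (by omega) _ _
      (hY i (by omega)) h1

theorem CHN_W_br {n m : ℕ} (a : Fin m → Fin m → Submodule ℚ (MQ n)) (ha : LGr a) (Y : ℕ → MQ n)
    (hY : ∀ i, i + 1 < m → Y i ∈ CHN_b a i (i + 1)) (e : ℕ) :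
    ∀ d i, i + d + e + 2 < m → CHN_W Y d i * CHN_W Y e (i + d + 1) - CHN_W Y e (i + d + 1) * CHN_W Y d i =
      CHN_W Y (d + e + 1) i := by
  intro d
  induction d with
  | zero =>
    intro i hi
    rw [show (0 + e + 1) = e + 1 from by ring]
    rfl
  | succ d ih =>
    intro i hi
    have h1 := ih (i + 1) (by omega)
    rw [show i + 1 + d + 1 = i + (d + 1) + 1 from by ring] at h1
    have h2 : Y i * CHN_W Y e (i + (d + 1) + 1) = CHN_W Y e (i + (d + 1) + 1) * Y i := by
      refine CHN_comm a ha i (i + 1) (i + (d + 1) + 1) (i + (d + 1) + 1 + e + 1) (by omega) (by omega) (by omega) (by omega)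
        (by omega) (by omega) (by omega) (by omega) _ _ (hY i (by omega)) ?_
      exact CHN_W_mem a ha Y hY e (i + (d + 1) + 1) (by omega)
    rw [show d + 1 + e + 1 = (d + e + 1) + 1 from by ring]
    show (Y i * CHN_W Y d (i + 1) - CHN_W Y d (i + 1) * Y i) * CHN_W Y e (i + (d + 1) + 1) -
      CHN_W Y e (i + (d + 1) + 1) * (Y i * CHN_W Y d (i + 1) - CHN_W Y d (i + 1) * Y i) =
      Y i * CHN_W Y (d + e + 1) (i + 1) - CHN_W Y (d + e + 1) (i + 1) * Y i
    rw [← h1]
    generalize CHN_W Y e (i + (d + 1) + 1) = V at h2 ⊢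
    generalize CHN_W Y d (i + 1) = U
    generalize Y i = T at h2 ⊢
    have h3 : T * U * V - U * T * V - (V * (T * U) - V * (U * T)) - (T * (U * V) - T * (V * U) - (U * V * T - V * U * T)) =
      (T * V - V * T) * U - U * (T * V - V * T) := by noncomm_ring
    rw [h2, sub_self, zero_mul, mul_zero, sub_self, sub_eq_zero] at h3
    rw [sub_mul, mul_sub, mul_sub, sub_mul]
    exact h3

theorem CHN_W_congr {n : ℕ} (Y Y' : ℕ → MQ n) : ∀ d i, (∀ j, i ≤ j → Y j = Y' j) → CHN_W Y d i = CHN_W Y' d i := by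
  intro d
  induction d with
  | zero => intro i h; exact h i le_rfl
  | succ d ih =>
    intro i h
    show Y i * CHN_W Y d (i + 1) - CHN_W Y d (i + 1) * Y i = Y' i * CHN_W Y' d (i + 1) - CHN_W Y' d (i + 1) * Y' i
    rw [h i le_rfl, ih (i + 1) fun j hj => h j (by omega)]

theorem CHN_span {n m : ℕ} (a : Fin m → Fin m → Submodule ℚ (MQ n)) (ha : LGr a) :
    ∀ d i, i + d + 1 < m → CHN_b a i (i + d + 1) ≤
      Submodule.span ℚ {C | ∃ Y : ℕ → MQ n, (∀ i, i + 1 < m → Y i ∈ CHN_b a i (i + 1)) ∧ C = CHN_W Y d i} := by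
  intro d
  induction d with
  | zero =>
    intro i hi C hC
    refine Submodule.subset_span ⟨fun j => if j = i then C else 0, fun j hj => ?_, ?_⟩
    · show (if j = i then C else 0) ∈ _
      by_cases h : j = i
      · rw [if_pos h, h]; exact hC
      · rw [if_neg h]; exact Submodule.zero_mem _
    · show C = if i = i then C else 0
      rw [if_pos rfl]
  | succ d ih =>
    intro i hi
    rw [CHN_b_eq a i (i + (d + 1) + 1) (by omega) hi, ha.gen ⟨i, by omega⟩ ⟨i + 1, by omega⟩ ⟨i + (d + 1) + 1, hi⟩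
      (fun h => by have := congrArg Fin.val h; simp at this) (fun h => by have := congrArg Fin.val h; simp at this)
      (fun h => by have := congrArg Fin.val h; simp at this; omega), Submodule.span_le]
    rintro C ⟨A, hA, B, hB, rfl⟩
    have h1 := ih (i + 1) (by omega)
    rw [show i + 1 + d + 1 = i + (d + 1) + 1 from by ring, CHN_b_eq a (i + 1) (i + (d + 1) + 1) (by omega) hi] at h1
    have h2 := h1 hB
    refine Submodule.span_induction (p := fun B _ => A * B - B * A ∈ Submodule.span ℚ {C | ∃ Y : ℕ → MQ n,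
      (∀ i, i + 1 < m → Y i ∈ CHN_b a i (i + 1)) ∧ C = CHN_W Y (d + 1) i}) ?_ ?_ ?_ ?_ h2
    · rintro _ ⟨Y, hY, rfl⟩
      refine Submodule.subset_span ⟨fun j => if j = i then A else Y j, fun j hj => ?_, ?_⟩
      · show (if j = i then A else Y j) ∈ _
        by_cases h : j = i
        · rw [if_pos h, h, CHN_b_eq a i (i + 1) (by omega) (by omega)]; exact hA
        · rw [if_neg h]; exact hY j hj
      · show A * CHN_W Y d (i + 1) - CHN_W Y d (i + 1) * A =
          (if i = i then A else Y i) * CHN_W (fun j => if j = i then A else Y j) d (i + 1) -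
            CHN_W (fun j => if j = i then A else Y j) d (i + 1) * (if i = i then A else Y i)
        rw [if_pos rfl, CHN_W_congr (fun j => if j = i then A else Y j) Y d (i + 1) fun j hj => by
          show (if j = i then A else Y j) = Y j
          rw [if_neg (by omega)]]
    · rw [mul_zero, zero_mul, sub_self]; exact Submodule.zero_mem _
    · intro x y _ _ hx hy
      have : A * (x + y) - (x + y) * A = (A * x - x * A) + (A * y - y * A) := by noncomm_ring
      rw [this]
      exact Submodule.add_mem _ hx hy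
    · intro c x _ hx
      have : A * (c • x) - (c • x) * A = c • (A * x - x * A) := by
        rw [mul_smul_comm, smul_mul_assoc, smul_sub]
      rw [this]
      exact Submodule.smul_mem _ c hx

theorem CHN_row {n m : ℕ} (a : Fin m → Fin m → Submodule ℚ (MQ n)) (ha : LGr a) (i k j : Fin m) (hik : i ≠ k) (h : a i k ≠ ⊥)
    (hij : i ≠ j) : a i j ≠ ⊥ := by
  by_cases hjk : j = k
  · rw [hjk]; exact h
  · intro h0
    refine h ?_
    rw [ha.gen i j k hij hjk hik, h0, Submodule.span_eq_bot]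
    rintro _ ⟨A, hA, B, hB, rfl⟩
    rw [(Submodule.mem_bot ℚ).1 hA, zero_mul, mul_zero, sub_self]

theorem CHN_col {n m : ℕ} (a : Fin m → Fin m → Submodule ℚ (MQ n)) (ha : LGr a) (i k j : Fin m) (hik : i ≠ k) (h : a i k ≠ ⊥)
    (hjk : j ≠ k) : a j k ≠ ⊥ := by
  by_cases hij : i = j
  · rw [← hij]; exact h
  · intro h0
    refine h ?_
    rw [ha.gen i j k hij hjk hik, h0, Submodule.span_eq_bot]
    rintro _ ⟨A, hA, B, hB, rfl⟩
    rw [(Submodule.mem_bot ℚ).1 hB, zero_mul, mul_zero, sub_self]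

theorem CHN_all {n m : ℕ} (hm : 3 ≤ m) (a : Fin m → Fin m → Submodule ℚ (MQ n)) (ha : LGr a) (i k p q : Fin m) (hik : i ≠ k)
    (h : a i k ≠ ⊥) (hpq : p ≠ q) : a p q ≠ ⊥ := by
  by_cases hq : i = q
  · obtain ⟨l, hl1, hl2⟩ : ∃ l : Fin m, l ≠ i ∧ l ≠ p := by
      by_contra hcon
      push Not at hcon
      have h1 : (Finset.univ : Finset (Fin m)) ⊆ {i, p} := by
        intro l _
        rw [Finset.mem_insert, Finset.mem_singleton]
        by_cases hli : l = i
        · exact Or.inl hli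
        · exact Or.inr (hcon l hli)
      have h2 := Finset.card_le_card h1
      have h3 := Finset.card_le_two (a := i) (b := p)
      rw [Finset.card_univ, Fintype.card_fin] at h2
      omega
    have h1 := CHN_row a ha i k l hik h hl1.symm
    have h2 := CHN_col a ha i l p hl1.symm h1 hl2.symm
    exact CHN_row a ha p l q hl2.symm h2 hpq
  · have h1 := CHN_row a ha i k q hik h hq
    exact CHN_col a ha i q p hq h1 hpq

theorem CHN : CHN_stmt := by
  intro n m hm a ha hne
  obtain ⟨i0, k0, hik, hne⟩ := hne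
  have h1 : a ⟨0, by omega⟩ ⟨0 + (m - 2) + 1, by omega⟩ ≠ ⊥ :=
    CHN_all hm a ha i0 k0 _ _ hik hne (fun h => by have := congrArg Fin.val h; simp at this)
  have h2 := CHN_span a ha (m - 2) 0 (by omega)
  rw [CHN_b_eq a 0 (0 + (m - 2) + 1) (by omega) (by omega)] at h2
  obtain ⟨Y, hY, hW⟩ : ∃ Y : ℕ → MQ n, (∀ i, i + 1 < m → Y i ∈ CHN_b a i (i + 1)) ∧ CHN_W Y (m - 2) 0 ≠ 0 := by
    by_contra hcon
    push Not at hcon
    refine h1 ?_
    rw [eq_bot_iff]
    refine h2.trans ?_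
    rw [Submodule.span_le]
    rintro _ ⟨Y, hY, rfl⟩
    rw [hcon Y hY]
    exact Submodule.zero_mem _
  have hne1 : ∀ i, i + 1 < m → CHN_W Y (m - 2 - i) i ≠ 0 := by
    intro i hi h0
    rcases Nat.eq_zero_or_pos i with h | h
    · rw [h] at h0
      exact hW h0
    · have h3 := CHN_W_br a ha Y hY (m - 2 - i) (i - 1) 0 (by omega)
      rw [show 0 + (i - 1) + 1 = i from by omega, show i - 1 + (m - 2 - i) + 1 = m - 2 from by omega, h0, mul_zero, zero_mul,
        sub_self] at h3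
      exact hW h3.symm
  have hne2 : ∀ d i, i + d + 1 < m → CHN_W Y d i ≠ 0 := by
    intro d i hi h0
    by_cases hd : d = m - 2 - i
    · rw [hd] at h0
      exact hne1 i (by omega) h0
    · have h3 := CHN_W_br a ha Y hY (m - 2 - i - d - 1) d i (by omega)
      rw [show d + (m - 2 - i - d - 1) + 1 = m - 2 - i from by omega, h0, mul_zero, zero_mul, sub_self] at h3
      exact hne1 i (by omega) h3.symm
  refine ⟨fun i j => CHN_W Y (j.1 - i.1 - 1) i.1, ?_, ?_, ?_⟩
  · intro i j hij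
    have hij' : i.1 < j.1 := hij
    have h3 := CHN_W_mem a ha Y hY (j.1 - i.1 - 1) i.1 (by omega)
    rw [show i.1 + (j.1 - i.1 - 1) + 1 = j.1 from by omega, CHN_b_eq a i.1 j.1 i.2 j.2] at h3
    exact h3
  · intro i j k hij hjk
    have hij' : i.1 < j.1 := hij
    have hjk' : j.1 < k.1 := hjk
    have h3 := CHN_W_br a ha Y hY (k.1 - j.1 - 1) (j.1 - i.1 - 1) i.1 (by omega)
    rw [show i.1 + (j.1 - i.1 - 1) + 1 = j.1 from by omega,
      show j.1 - i.1 - 1 + (k.1 - j.1 - 1) + 1 = k.1 - i.1 - 1 from by omega] at h3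
    exact h3
  · intro i j hij
    have hij' : i.1 < j.1 := hij
    exact hne2 (j.1 - i.1 - 1) i.1 (by omega)

end Pool.Agent.RG9
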